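import Pool.Agent.Helper35.HSF.StH

/-!
# Project HSF (MP_925021_gt), module HDI: the hypersurface is diffeomorphic to the sphere (assembly)
-/

set_option autoImplicit false

namespace Helper58.HSF

open Helper35.HSF Helper35.MS Helper35.PI Helper35.PI2 Helper32.CL
open scoped ContDiff Manifold Topology ENNReal BigOperators
open MeasureTheory Set Filter

/-- the restriction of a smooth family to one time is smooth -/
theorem slice_smooth {n : ℕ} {V : Type} [NormedAddCommGroup V] [NormedSpace ℝ V] {M : Type}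
    [TopologicalSpace M] [ChartedSpace (EE n) M] {I : Set ℝ} {u : M → ℝ → V}
    (hu : ContMDiffOn ((𝓡 n).prod 𝓘(ℝ, ℝ)) 𝓘(ℝ, V) ∞ (fun z : M × ℝ => u z.1 z.2) (univ ×ˢ I))
    {t : ℝ} (ht : t ∈ I) : ContMDiff (𝓡 n) 𝓘(ℝ, V) ∞ (fun q => u q t) := by
  have h1 : ContMDiff (𝓡 n) ((𝓡 n).prod 𝓘(ℝ, ℝ)) ∞ (fun q : M => ((q, t) : M × ℝ)) :=
    contMDiff_id.prodMk contMDiff_const
  exact hu.comp_contMDiff h1 (fun q => ⟨mem_univ _, ht⟩)

/-- **HDI**: the manifold is diffeomorphic to the sphere -/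
theorem hHDI (hNUX : StNUX) (hHMN : StHMN) (hKCV : StKCV) (hKDF : StKDF) : StHDI := by
  intro n hn2 M _ _ _ _ _ _ I F ν₀ hI h0 hS hU hP
  have h1n : 1 ≤ n := by omega
  obtain ⟨ν, hν, -⟩ := hNUX n h1n M I F ν₀ hI h0 hS hU
  have hyp : Hyp n 1 0 F ν := by
    refine ⟨one_pos, slice_smooth hS.smooth h0, slice_smooth hν.sν h0, fun q => hS.imm q 0 h0,
      fun q => hS.sph q 0 h0, fun q => hν.nν q 0 h0, fun q => hν.Fν q 0 h0, fun q v hv => hν.tν q 0 h0 v hv⟩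
  have hlt : ∀ q, ∀ c : Fin n → ℝ, gn F q 0 c = 1 → |1 * hn F ν q 0 c| < 1 := by
    intro q c hc
    obtain ⟨e1, e2⟩ := hHMN n h1n M I F ν hS hν q 0 h0 c
    have h2 := hP q c (by rw [e1, hc])
    rw [e2, norm_smul, hν.nν q 0 h0, mul_one, Real.norm_eq_abs, sq_abs] at h2
    rw [one_mul]
    exact (sq_lt_one_iff_abs_lt_one _).1 h2
  exact hKDF n hn2 M _ _ (hKCV n M 1 0 F ν hyp hlt)

end Helper58.HSF
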