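import Mathlib
import Pool.Agent.Helper35.HSF.StD

/-!
Project HSF (MP_925021_gt), module SUR: almost totally geodesic hypersurfaces are almost onto a great
sphere.
-/

set_option autoImplicit false
set_option linter.style.haveILetI false

namespace Helper58.HSF

open Helper35.HSF Helper35.MS Helper35.PI Helper35.PI2 Helper32.CL
open scoped ContDiff Manifold Topology ENNReal BigOperators
open MeasureTheory Set Filter

/-- two unit vectors -/
theorem two_vec {E : Type*} [NormedAddCommGroup E] [InnerProductSpace ℝ E] (w e e' : E)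
    (hw : ‖w‖ = 1) (he : ‖e‖ = 1) (he' : ‖e'‖ = 1) (g : ℝ) (hg : |(inner ℝ e e' : ℝ)| ≤ g) :
    (inner ℝ w e : ℝ) ^ 2 + (inner ℝ w e' : ℝ) ^ 2 ≤ 1 + g := by
  obtain ⟨s, hs⟩ : ∃ s : ℝ, s = inner ℝ w e := ⟨_, rfl⟩
  obtain ⟨s', hs'⟩ : ∃ s' : ℝ, s' = inner ℝ w e' := ⟨_, rfl⟩
  obtain ⟨k, hk⟩ : ∃ k : ℝ, k = inner ℝ e e' := ⟨_, rfl⟩
  rw [← hk] at hg
  rw [← hs, ← hs']
  have hg0 : 0 ≤ g := (abs_nonneg _).trans hg
  have h1 : (inner ℝ w (s • e + s' • e') : ℝ) = s ^ 2 + s' ^ 2 := by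
    rw [inner_add_right, inner_smul_right, inner_smul_right, ← hs, ← hs']
    ring
  have h2 : ‖s • e + s' • e'‖ ^ 2 = s ^ 2 + 2 * (s * s' * k) + s' ^ 2 := by
    rw [norm_add_sq_real, norm_smul, norm_smul, he, he', real_inner_smul_left,
      real_inner_smul_right, ← hk, mul_one, mul_one, Real.norm_eq_abs, Real.norm_eq_abs, sq_abs,
      sq_abs]
    ring
  have h3 := real_inner_mul_inner_self_le w (s • e + s' • e')
  rw [h1, real_inner_self_eq_norm_sq, real_inner_self_eq_norm_sq, hw, h2] at h3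
  have h4 : 2 * (s * s' * k) ≤ (s ^ 2 + s' ^ 2) * g := by
    have h5 : s * s' * k ≤ |s * s'| * g := by
      calc s * s' * k ≤ |s * s' * k| := le_abs_self _
        _ = |s * s'| * |k| := abs_mul _ _
        _ ≤ |s * s'| * g := mul_le_mul_of_nonneg_left hg (abs_nonneg _)
    have h6 : 2 * |s * s'| ≤ s ^ 2 + s' ^ 2 := by
      rw [abs_mul]
      nlinarith [sq_nonneg (|s| - |s'|), sq_abs s, sq_abs s']
    nlinarith
  by_contra hcon
  push Not at hcon
  have h7 : 0 < s ^ 2 + s' ^ 2 := by linarith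
  nlinarith

theorem hSUR (hFVJ : StFVJ) (hMUJ : StMUJ) (hARE : StARE) (hEVF : StEVF) (hPRJ : StPRJ)
    (hHNB : StHNB) (hHHY : StHHY) (hSMF : StSMF) (hSMR : StSMR) (hV5 : StV5) : StSUR := by
  intro n hn η hη hη1
  have hn1 : (1 : ℝ) ≤ n := by exact_mod_cast hn
  have hn0 : (0 : ℝ) < n := by linarith
  obtain ⟨δ, hδd⟩ : ∃ δ : ℝ, δ = η / (100 * n) := ⟨_, rfl⟩
  have hδ : 0 < δ := by rw [hδd]; positivity
  have hδn : 100 * (n * δ) = η := by rw [hδd]; field_simp
  have hδη : 100 * δ ≤ η := by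
    rw [← hδn]
    nlinarith
  refine ⟨δ, hδ, ?_⟩
  intro M _ _ _ _ _ _ J F ν hF t ht h1 h2 x₀ p hp hpe
  by_contra hcon
  push Not at hcon
  -- the setup
  haveI : SecondCountableTopology M := ChartedSpace.secondCountable_of_sigmaCompact (EE n) M
  letI : MeasurableSpace M := borel M
  haveI : BorelSpace M := ⟨rfl⟩
  obtain ⟨c, χ, hPU⟩ := hV5 n M
  have hSet : SetupF n J F c χ := ⟨hF.mcf, hPU⟩
  have hSetJ : SetupJ n J F c χ := hSet.toJ
  have hrr : 0 < rr n t := hF.r0 t ht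
  obtain ⟨ρ, hρd⟩ : ∃ ρ : ℝ, ρ = Real.sqrt (rr n t) := ⟨_, rfl⟩
  have hρ : 0 < ρ := by rw [hρd]; exact Real.sqrt_pos.2 hrr
  have hρ2 : ρ ^ 2 = rr n t := by rw [hρd]; exact Real.sq_sqrt hrr.le
  rw [← hρd] at h1 hcon
  have hH := hHHY n M J F ν hF t ht
  have cF : Continuous (fun q => F q t) := hH.sF.continuous
  have cν : Continuous (fun q => ν q t) := hH.sν.continuous
  obtain ⟨hHs, hνs, hEV⟩ := hEVF n hn M J F ν hF
  have hslice := hSMR n (n + 2) M J F hF.mcf.toIsImmJ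
  have cH : Continuous (fun q => Hs n F ν q t) := ((hslice _ hHs).1 t ht).1.continuous
  -- bound for the mean curvature
  have hHb : ∀ q, |Hs n F ν q t| * ρ ≤ n * δ := by
    intro q
    obtain ⟨-, b1, -, -, -, -, b2⟩ := hHNB n hn M J F ν hF q t ht
    have b3 := b2 (δ / ρ) (by
      intro d hd
      have := h2 q d hd
      rw [← hρd] at this
      rw [le_div_iff₀ hρ]
      linarith)
    have b4 : Hs n F ν q t ^ 2 ≤ (n * (δ / ρ)) ^ 2 := by
      calc Hs n F ν q t ^ 2 ≤ n * h2N n F q t := b1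
        _ ≤ n * (n * (δ / ρ) ^ 2) := mul_le_mul_of_nonneg_left b3 hn0.le
        _ = (n * (δ / ρ)) ^ 2 := by ring
    have b5 : |Hs n F ν q t| ≤ n * (δ / ρ) := abs_le_of_sq_le_sq b4 (by positivity)
    calc |Hs n F ν q t| * ρ ≤ n * (δ / ρ) * ρ := mul_le_mul_of_nonneg_right b5 hρ.le
      _ = n * δ := by field_simp
  -- integrals
  obtain ⟨hA, -⟩ := hARE n (n + 2) M J F c χ hSet t ht
  obtain ⟨s, -, hmu⟩ := hMUJ n (n + 2) M J F c χ hSetJ
  obtain ⟨hfin, -, hint⟩ := hmu t ht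
  haveI : IsFiniteMeasure (muM n F c χ t) := ⟨hfin⟩
  have key : ∀ g : M → ℝ, Continuous g → ∫ q, g q ∂muM n F c χ t = 0 → ∀ κ : ℝ,
      (∀ q, κ ≤ g q) → κ ≤ 0 := by
    intro g hg h0 κ hκ
    have i1 : ∫ _q : M, κ ∂muM n F c χ t ≤ ∫ q, g q ∂muM n F c χ t :=
      integral_mono (integrable_const κ) (hint g hg).1 hκ
    rw [h0, integral_const, smul_eq_mul] at i1
    by_contra hcon2
    push Not at hcon2
    have := mul_pos hA hcon2
    linarith
  have hdc : ∀ (v : EE (n + 2)) (q : M), dvg (n := n) F (fun _ => v) q t = 0 := by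
    intro v q
    unfold dvg
    simp
  -- orthogonal decomposition
  have hnF : ∀ q, (inner ℝ (F q t) (F q t) : ℝ) = rr n t := by
    intro q
    rw [real_inner_self_eq_norm_sq, hF.sph q t ht]
  have hHHv : ∀ (q : M) (v : EE (n + 2)), (inner ℝ (HH (n := n) F q t) v : ℝ)
      = Hs n F ν q t * inner ℝ (ν q t) v - n / rr n t * inner ℝ (F q t) v := by
    intro q v
    rw [(hEV q t ht).1, inner_sub_left, real_inner_smul_left, real_inner_smul_left]
  have hνv : ∀ (q : M) (v : EE (n + 2)), ‖v‖ = 1 → |(inner ℝ (ν q t) v : ℝ)| ≤ 1 := by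
    intro q v hv
    have := abs_real_inner_le_norm (ν q t) v
    rwa [hF.nν q t ht, hv, mul_one] at this
  -- the maximum point
  obtain ⟨y, -, hy⟩ := isCompact_univ.exists_isMaxOn (univ_nonempty (α := M))
    (f := fun q => (inner ℝ (F q t) p : ℝ)) (cF.inner continuous_const).continuousOn
  have hy' : ∀ q, (inner ℝ (F q t) p : ℝ) ≤ inner ℝ (F y t) p := fun q => hy (mem_univ q)
  obtain ⟨a, had⟩ : ∃ a : ℝ, a = inner ℝ (F y t) p / ρ := ⟨_, rfl⟩
  obtain ⟨b, hbd⟩ : ∃ b : ℝ, b = inner ℝ (ν y t) p := ⟨_, rfl⟩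
  have haF : (inner ℝ (F y t) p : ℝ) = a * ρ := by rw [had]; field_simp
  have hgd : gdM n F t (fun q => (inner ℝ (F q t) p : ℝ)) y = 0 := by
    have hz : fderiv ℝ (fun z => (inner ℝ (F ((chartAt (EE n) y).symm z) t) p : ℝ))
        (chartAt (EE n) y y) = 0 := by
      apply IsLocalMax.fderiv_eq_zero
      apply Filter.Eventually.of_forall
      intro z
      show (inner ℝ (F ((chartAt (EE n) y).symm z) t) p : ℝ)
        ≤ inner ℝ (F ((chartAt (EE n) y).symm (chartAt (EE n) y y)) t) p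
      rw [(chartAt (EE n) y).left_inv (mem_chart_source (EE n) y)]
      exact hy' _
    unfold gdM
    simp only [hz]
    simp
  have hpd : p = b • ν y t + (a / ρ) • F y t := by
    have := ((hEV y t ht).2.2.2.2.2.2 p).2.2.2
    rw [hgd, zero_add, haF, ← hbd, ← hρ2] at this
    rw [this]
    congr 2
    field_simp
  have hab : a ^ 2 + b ^ 2 = 1 := by
    have q1 : (inner ℝ p p : ℝ) = 1 := by rw [real_inner_self_eq_norm_sq, hp]; norm_num
    have q2 : (inner ℝ p p : ℝ) = b * inner ℝ (ν y t) p + (a / ρ) * inner ℝ (F y t) p := by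
      calc (inner ℝ p p : ℝ) = inner ℝ (b • ν y t + (a / ρ) • F y t) p := by rw [← hpd]
        _ = _ := by rw [inner_add_left, real_inner_smul_left, real_inner_smul_left]
    rw [q1, ← hbd, haF] at q2
    have q3 : a / ρ * (a * ρ) = a ^ 2 := by field_simp
    rw [q3] at q2
    linarith
  -- lower bound for `a`
  have ha1 : -δ ≤ a := by
    have hFV := (hFVJ n (n + 2) M J F c χ hSetJ t ht (fun _ => p) contMDiff_const).2
    have e1 : (fun q => dvg (n := n) F (fun _ => p) q t + (inner ℝ (HH (n := n) F q t) p : ℝ))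
        = fun q => Hs n F ν q t * inner ℝ (ν q t) p - n / rr n t * inner ℝ (F q t) p := by
      funext q
      rw [hdc, zero_add, hHHv]
    rw [e1] at hFV
    have := key _ (by fun_prop) hFV (-(n / ρ * (δ + a))) (by
      intro q
      have r1 : -(n * δ / ρ) ≤ Hs n F ν q t * inner ℝ (ν q t) p := by
        have r2 : |Hs n F ν q t * inner ℝ (ν q t) p| ≤ n * δ / ρ := by
          rw [abs_mul, le_div_iff₀ hρ]
          calc |Hs n F ν q t| * |(inner ℝ (ν q t) p : ℝ)| * ρ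
              ≤ |Hs n F ν q t| * 1 * ρ := by
                gcongr
                exact hνv q p hp
            _ ≤ n * δ := by rw [mul_one]; exact hHb q
        exact (abs_le.1 r2).1
      have r3 : n / rr n t * inner ℝ (F q t) p ≤ n / ρ * a := by
        have r4 : n / rr n t * inner ℝ (F q t) p ≤ n / rr n t * (a * ρ) := by
          apply mul_le_mul_of_nonneg_left _ (by positivity)
          rw [← haF]; exact hy' q
        have r5 : n / rr n t * (a * ρ) = n / ρ * a := by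
          rw [← hρ2]; field_simp
        rw [← r5]; exact r4
      have r6 : -(n / ρ * (δ + a)) = -(n * δ / ρ) - n / ρ * a := by ring
      rw [r6]
      linarith)
    by_contra hc
    push Not at hc
    have hc2 : 0 < -(n / ρ * (δ + a)) := by
      have : 0 < n / ρ * -(δ + a) := mul_pos (by positivity) (by linarith)
      linarith
    linarith
  -- upper bound for `a`
  have ha2 : a < 1 - η ^ 2 / 2 := by
    have r1 := hcon y
    have r2 : ‖(1 / ρ) • F y t - p‖ ^ 2 = 2 - 2 * a := by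
      rw [norm_sub_sq_real, norm_smul, real_inner_smul_left, haF, hp, mul_pow,
        hF.sph y t ht, ← hρ2, Real.norm_eq_abs, sq_abs]
      field_simp
      ring
    have r3 : η ^ 2 < ‖(1 / ρ) • F y t - p‖ ^ 2 := by
      apply pow_lt_pow_left₀ r1 hη.le (by norm_num)
    rw [r2] at r3
    linarith
  have hδ1 : 100 * δ ≤ 1 := hδη.trans hη1
  have hη2 : η ^ 2 ≤ 1 := by nlinarith
  have hb2 : η ^ 2 / 2 ≤ b ^ 2 := by
    rcases le_total 0 a with h0 | h0
    · nlinarith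
    · nlinarith
  have ha0 : |a| ≤ 1 := by
    rw [abs_le]
    constructor <;> nlinarith [sq_nonneg b]
  -- almost orthogonality
  have hee : |(inner ℝ (ν x₀ t) (ν y t) : ℝ)| ≤ 3 * δ / η := by
    have r1 : b * inner ℝ (ν x₀ t) (ν y t) = inner ℝ p (ν x₀ t)
        - (a / ρ) * inner ℝ (F y t) (ν x₀ t) := by
      have r2 : (inner ℝ p (ν x₀ t) : ℝ)
          = b * inner ℝ (ν y t) (ν x₀ t) + (a / ρ) * inner ℝ (F y t) (ν x₀ t) := by
        conv_lhs => rw [hpd]
        rw [inner_add_left, real_inner_smul_left, real_inner_smul_left]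
      rw [r2, real_inner_comm (ν y t) (ν x₀ t)]
      ring
    have r3 : |(a / ρ) * (inner ℝ (F y t) (ν x₀ t) : ℝ)| ≤ δ := by
      rw [abs_mul, abs_div, abs_of_pos hρ, div_mul_eq_mul_div, div_le_iff₀ hρ]
      calc |a| * |(inner ℝ (F y t) (ν x₀ t) : ℝ)| ≤ 1 * (δ * ρ) := by
            gcongr
            exact h1 x₀ y
        _ = δ * ρ := one_mul _
    have r4 : |b * (inner ℝ (ν x₀ t) (ν y t) : ℝ)| ≤ 2 * δ := by
      rw [r1]
      have := abs_sub (inner ℝ p (ν x₀ t) : ℝ) ((a / ρ) * (inner ℝ (F y t) (ν x₀ t) : ℝ))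
      linarith
    have r5 : b ^ 2 * (inner ℝ (ν x₀ t) (ν y t) : ℝ) ^ 2 ≤ 4 * δ ^ 2 := by
      have := sq_le_sq' (by linarith [(abs_le.1 r4).1] :
        -(2 * δ) ≤ b * (inner ℝ (ν x₀ t) (ν y t) : ℝ)) (abs_le.1 r4).2
      nlinarith
    have r6 : (inner ℝ (ν x₀ t) (ν y t) : ℝ) ^ 2 ≤ (3 * δ / η) ^ 2 := by
      rw [div_pow, le_div_iff₀ (by positivity)]
      have := mul_le_mul_of_nonneg_right hb2 (sq_nonneg (inner ℝ (ν x₀ t) (ν y t) : ℝ))
      nlinarith [sq_nonneg δ]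
    exact abs_le_of_sq_le_sq r6 (by positivity)
  -- first variation for the fields `⟨F,v⟩v`
  have hfv : ∀ v : EE (n + 2), ‖v‖ = 1 → ∫ q, (1 - inner ℝ (ν q t) v ^ 2
      - (n + 1) / rr n t * inner ℝ (F q t) v ^ 2
      + Hs n F ν q t * inner ℝ (ν q t) v * inner ℝ (F q t) v) ∂muM n F c χ t = 0 := by
    intro v hv
    have hsm : ContMDiff (𝓡 n) 𝓘(ℝ, ℝ) ∞ (fun q => (inner ℝ (F q t) v : ℝ)) :=
      ((hslice _ ((hSMF n (n + 2) M J F hF.mcf.toIsImmJ).2.2.2.2.2.1 v)).1 t ht).1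
    have hsm1 : ContMDiff (𝓡 n) 𝓘(ℝ, ℝ) 1 (fun q => (inner ℝ (F q t) v : ℝ)) :=
      hsm.of_le (by exact_mod_cast le_top)
    have hX : ContMDiff (𝓡 n) 𝓘(ℝ, EE (n + 2)) 1 (fun q => (inner ℝ (F q t) v : ℝ) • v) :=
      hsm1.smul contMDiff_const
    have hFV := (hFVJ n (n + 2) M J F c χ hSetJ t ht _ hX).2
    have e1 : (fun q => dvg (n := n) F (fun q => (inner ℝ (F q t) v : ℝ) • v) q t
        + (inner ℝ (HH (n := n) F q t) ((inner ℝ (F q t) v : ℝ) • v) : ℝ))
        = fun q => (1 - inner ℝ (ν q t) v ^ 2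
          - (n + 1) / rr n t * inner ℝ (F q t) v ^ 2
          + Hs n F ν q t * inner ℝ (ν q t) v * inner ℝ (F q t) v) := by
      funext q
      rw [(hPRJ n (n + 2) M J F hF.mcf.toIsImmJ t ht).1 _ hsm1 (fun _ => v) contMDiff_const q,
        hdc, mul_zero, zero_add, real_inner_smul_right, hHHv]
      have d1 := ((hEV q t ht).2.2.2.2.2.2 v).2.2.2
      have d2 : (inner ℝ (gdM n F t (fun q => (inner ℝ (F q t) v : ℝ)) q) v : ℝ)
          = 1 - inner ℝ (ν q t) v ^ 2 - inner ℝ (F q t) v ^ 2 / rr n t := by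
        have d3 : gdM n F t (fun q => (inner ℝ (F q t) v : ℝ)) q
            = v - (inner ℝ (ν q t) v : ℝ) • ν q t
              - ((inner ℝ (F q t) v : ℝ) / rr n t) • F q t := by
          nth_rewrite 2 [d1]
          abel
        rw [d3, inner_sub_left, inner_sub_left, real_inner_smul_left, real_inner_smul_left,
          real_inner_self_eq_norm_sq, hv]
        ring
      rw [d2]
      ring
    rw [e1] at hFV
    exact hFV
  -- the final contradiction
  have hfin2 := key (fun q => (1 - inner ℝ (ν q t) (ν x₀ t) ^ 2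
      - (n + 1) / rr n t * inner ℝ (F q t) (ν x₀ t) ^ 2
      + Hs n F ν q t * inner ℝ (ν q t) (ν x₀ t) * inner ℝ (F q t) (ν x₀ t))
      + (1 - inner ℝ (ν q t) (ν y t) ^ 2
      - (n + 1) / rr n t * inner ℝ (F q t) (ν y t) ^ 2
      + Hs n F ν q t * inner ℝ (ν q t) (ν y t) * inner ℝ (F q t) (ν y t))) (by fun_prop) (by
    rw [integral_add]
    · rw [hfv _ (hF.nν x₀ t ht), hfv _ (hF.nν y t ht), add_zero]
    · exact (hint _ (by fun_prop)).1
    · exact (hint _ (by fun_prop)).1) (1 - 3 * δ / η - 2 * ((2 * n + 1) * δ ^ 2)) (by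
    intro q
    have t1 := two_vec (ν q t) (ν x₀ t) (ν y t) (hF.nν q t ht) (hF.nν x₀ t ht) (hF.nν y t ht)
      (3 * δ / η) hee
    have t2 : ∀ v : EE (n + 2), ‖v‖ = 1 → |(inner ℝ (F q t) v : ℝ)| ≤ δ * ρ →
        (n + 1) / rr n t * inner ℝ (F q t) v ^ 2 ≤ (n + 1) * δ ^ 2 ∧
        -(n * δ ^ 2) ≤ Hs n F ν q t * inner ℝ (ν q t) v * inner ℝ (F q t) v := by
      intro v hv hFv
      have t3 : (inner ℝ (F q t) v : ℝ) ^ 2 ≤ δ ^ 2 * ρ ^ 2 := by
        have := sq_le_sq' (abs_le.1 hFv).1 (abs_le.1 hFv).2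
        nlinarith
      constructor
      · rw [div_mul_eq_mul_div, div_le_iff₀ hrr, ← hρ2]
        nlinarith
      · have t4 : |Hs n F ν q t * inner ℝ (ν q t) v * inner ℝ (F q t) v| ≤ n * δ ^ 2 := by
          rw [abs_mul, abs_mul]
          calc |Hs n F ν q t| * |(inner ℝ (ν q t) v : ℝ)| * |(inner ℝ (F q t) v : ℝ)|
              ≤ |Hs n F ν q t| * 1 * (δ * ρ) := by
                gcongr
                exact hνv q v hv
            _ = (|Hs n F ν q t| * ρ) * δ := by ring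
            _ ≤ (n * δ) * δ := mul_le_mul_of_nonneg_right (hHb q) hδ.le
            _ = n * δ ^ 2 := by ring
        exact (abs_le.1 t4).1
    obtain ⟨u1, u2⟩ := t2 (ν x₀ t) (hF.nν x₀ t ht) (h1 x₀ q)
    obtain ⟨u3, u4⟩ := t2 (ν y t) (hF.nν y t ht) (h1 y q)
    linarith)
  have w1 : 3 * δ / η ≤ 3 / 100 := by
    rw [div_le_iff₀ hη]
    linarith
  have w2 : 2 * ((2 * n + 1) * δ ^ 2) ≤ 6 / 10000 := by
    have w3 : n * δ ≤ 1 / 100 := by linarith
    have w4 : δ ≤ 1 / 100 := by linarith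
    have w5 : n * δ * δ ≤ 1 / 100 * (1 / 100) := by
      apply mul_le_mul w3 w4 hδ.le (by norm_num)
    have w6 : δ * δ ≤ 1 / 100 * (1 / 100) := by
      apply mul_le_mul w4 w4 hδ.le (by norm_num)
    nlinarith
  linarith

end Helper58.HSF
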