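import Mathlib
import Pool.Agent.Helper35.HSF.StD
import Pool.Agent.Helper40.HSF.M_TP1

/-!
Project HSF (MP_925021_gt), module TCD: no touching for the difference of the extremal curvatures.
-/

set_option autoImplicit false

namespace Helper58.HSF

open Helper35.HSF Helper35.MS Helper35.PI Helper35.PI2 Helper32.CL
open scoped ContDiff Manifold Topology ENNReal BigOperators
open MeasureTheory Set Filter

theorem hTCD (hSLB : StSLB) (hMP : StMP) (hJA : StJA) : StTCD := by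
  intro n M _ _ _ J F ν hF x₀ t₀ ht y y' hyC hy' hy0 hlt P hPm Q hQm hPQ hev
  have hpt : ∀ w₁ ∈ ZS n F ν x₀ t₀, ∀ w₂ ∈ ZS n F ν x₀ t₀, w₁ - w₂ ≤ P - Q := by
    intro w₁ h₁ w₂ h₂
    have := hev.self_of_nhds le_rfl w₁ h₁ w₂ h₂
    rw [hPQ]
    exact this
  have hext : ∀ z ∈ ZS n F ν x₀ t₀, Q ≤ z ∧ z ≤ P := by
    intro z hz
    constructor
    · have := hpt P hPm z hz
      linarith
    · have := hpt z hz Q hQm
      linarith
  have hQP : Q < P := by linarith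
  obtain ⟨-, -, -, θ, β, γ, hθ0, hθc, hβC, hβ0, hγC, hγ0, hmem, hjβ, hjγ⟩ :=
    hSLB n M J F ν hF x₀ t₀ ht P hPm Q hQm hQP hext
  obtain ⟨hκC, -, hκh⟩ := Helper40.HSF.time_only hJA n y t₀ y' hyC hy'
  obtain ⟨-, -, hlin, -, -⟩ := hJA n ℝ ((0 : EE n), t₀)
  obtain ⟨Φ, hΦ⟩ : ∃ Φ : EE n × ℝ → ℝ, Φ = fun z => (β z - γ z) - y z.2 := ⟨_, rfl⟩
  have h1C : ContDiffAt ℝ 2 (fun z : EE n × ℝ => β z - γ z) ((0 : EE n), t₀) := hβC.sub hγC
  have hΦC : ContDiffAt ℝ 2 Φ ((0 : EE n), t₀) := by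
    rw [hΦ]; exact h1C.sub hκC
  have hΦ0 : Φ ((0 : EE n), t₀) = 0 := by
    rw [hΦ]
    simp only [hβ0, hγ0]
    linarith
  have hmax : ∀ᶠ z in 𝓝 ((0 : EE n), t₀), z.2 ≤ t₀ → Φ z ≤ Φ ((0 : EE n), t₀) := by
    have hc : Tendsto (fun z : EE n × ℝ => (θ z, z.2)) (𝓝 ((0 : EE n), t₀)) (𝓝 (x₀, t₀)) := by
      have h1 : Tendsto θ (𝓝 ((0 : EE n), t₀)) (𝓝 x₀) := by
        rw [← hθ0]; exact hθc
      rw [nhds_prod_eq (x := x₀)]
      exact h1.prodMk (continuous_snd.tendsto ((0 : EE n), t₀))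
    filter_upwards [hc.eventually hev, hmem] with z hz hz2 hzt
    have h3 := hz hzt (β z) hz2.1 (γ z) hz2.2
    rw [hΦ0, hΦ]
    change β z - γ z - y z.2 ≤ 0
    change β z - γ z ≤ y z.2 at h3
    linarith
  obtain ⟨-, hh0⟩ := hMP n 0 t₀ Φ hΦC hmax
  have hheat : jh Φ ((0 : EE n), t₀) = jh β ((0 : EE n), t₀) - jh γ ((0 : EE n), t₀) - y' := by
    rw [hΦ, (hlin _ _ h1C hκC).2.2.2, (hlin _ _ hβC hγC).2.2.2, hκh]
  rw [hheat] at hh0
  have hD : 0 < P - Q := by linarith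
  have s1 : 0 ≤ 2 / (P - Q) * ∑ k, jg β ((0 : EE n), t₀) k ^ 2 :=
    mul_nonneg (by positivity) (Finset.sum_nonneg fun i _ => sq_nonneg _)
  have s2 : 0 ≤ 2 / (P - Q) * ∑ k, jg γ ((0 : EE n), t₀) k ^ 2 :=
    mul_nonneg (by positivity) (Finset.sum_nonneg fun i _ => sq_nonneg _)
  have h5 : h2N n F x₀ t₀ * P - h2N n F x₀ t₀ * Q < y' := by
    rw [← mul_sub, hPQ]; exact hlt
  linarith

end Helper58.HSF
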